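import Mathlib
import Pool.Agent.H.MP_38c1f8_pr.G

namespace Pool.Agent.Results.MP_38c1f8_pr.Cex

open MeasureTheory ProbabilityTheory

/-- `G` with its graph metric is quasi-isometric to `ℤ²` with the grid metric. -/
def QIPlane {V : Type} (G : SimpleGraph V) : Prop :=
  ∃ (f : V → ℤ × ℤ) (A B : ℝ), 1 ≤ A ∧ 0 ≤ B ∧
    (∀ u v, (G.dist u v : ℝ) / A - B ≤ (|(f u).1 - (f v).1| + |(f u).2 - (f v).2| : ℤ) ∧
      ((|(f u).1 - (f v).1| + |(f u).2 - (f v).2| : ℤ) : ℝ) ≤ A * G.dist u v + B) ∧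
    ∀ z : ℤ × ℤ, ∃ v, ((|z.1 - (f v).1| + |z.2 - (f v).2| : ℤ) : ℝ) ≤ B

open Classical in
/-- the 2-neighbour contamination map -/
noncomputable def contam {V : Type} (G : SimpleGraph V) (c : V → Bool) : V → Bool :=
  fun v => if c v = true ∨ 2 ≤ {w | G.Adj v w ∧ c w = true}.encard then true else false

/-- the invasion set -/
def invasion {V : Type} (G : SimpleGraph V) : Set (V → Bool) :=
  {c | ∀ v, ∃ n, (contam G)^[n] c v = true}

/-- a fortress -/
def Fortress {V : Type} (G : SimpleGraph V) (S : Set V) : Prop :=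
  S.Finite ∧ S.Nonempty ∧ ∀ v ∈ S, {w | G.Adj v w ∧ w ∉ S}.encard ≤ 1

open Pool.Agent.H.MP_38c1f8_pr in
theorem result : ∃ (V : Type) (G : SimpleGraph V), Infinite V ∧ G.Connected ∧
    (∀ v, (G.neighborSet v).ncard = 4) ∧ QIPlane G ∧ (∀ S, ¬ Fortress G S) ∧
    ∃ p : unitInterval, 0 < p ∧ p < 1 ∧
      Measure.infinitePi (fun _ : V => bernoulliMeasure true false p) (invasion G) < 1 := by
  refine ⟨G.V, G.G, inferInstance, G.conn, G.reg, ⟨Prod.fst, 2, 2, by norm_num, by norm_num,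
    fun u v => ⟨?_, ?_⟩, fun z => ⟨(z, (true, true)), by simp⟩⟩, ?_, P.p0, ?_, ?_, ?_⟩
  · have h := G.dist_up u v
    have h2 : (G.G.dist u v : ℤ) ≤ 2 * (|u.1.1 - v.1.1| + |u.1.2 - v.1.2|) + 4 := by
      rw [Int.abs_eq_natAbs, Int.abs_eq_natAbs]
      omega
    have h3 : (G.G.dist u v : ℝ) ≤ 2 * (|u.1.1 - v.1.1| + |u.1.2 - v.1.2| : ℤ) + 4 := by
      exact_mod_cast h2
    linarith
  · have h := G.dist_low u v
    have h2 : (|u.1.1 - v.1.1| + |u.1.2 - v.1.2|) ≤ 2 * (G.G.dist u v : ℤ) + 2 := by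
      rw [Int.abs_eq_natAbs, Int.abs_eq_natAbs]
      omega
    exact_mod_cast h2
  · rintro S ⟨h1, h2, h3⟩
    obtain ⟨v, hv, hmax⟩ := Set.exists_max_image S G.lev h1 h2
    obtain ⟨a, c, hac, ha, hc, la, lc⟩ := G.up2 v
    have := Set.encard_le_one_iff.mp (h3 v hv) a c ⟨ha, fun e => absurd (hmax a e) (by omega)⟩
      ⟨hc, fun e => absurd (hmax c e) (by omega)⟩
    exact hac this
  · change (0 : ℝ) < 1 / 1000
    norm_num
  · change (1 / 1000 : ℝ) < 1
    norm_num
  · have key : ∀ c : G.V → Bool, ∀ n v, G.T c v.1 → (contam G.G)^[n] c v ≠ true := by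
      intro c n
      induction n with
      | zero => intro v hv; exact G.T_good hv
      | succ n ih =>
        intro v hv
        rw [Function.iterate_succ_apply']
        obtain ⟨a, ha⟩ := G.T_one v hv
        have h1 : {w | G.G.Adj v w ∧ (contam G.G)^[n] c w = true}.encard ≤ 1 := by
          rw [← Set.encard_singleton a]
          apply Set.encard_le_encard
          rintro w ⟨h1, h2⟩
          exact (ha w h1).resolve_right fun e => ih w e h2
        have h2 : ¬ (2 ≤ {w | G.G.Adj v w ∧ (contam G.G)^[n] c w = true}.encard) :=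
          fun e => absurd (e.trans h1) (by norm_num)
        have h3 := ih v hv
        unfold contam at h2 h3 ⊢
        rw [if_neg (not_or.mpr ⟨h3, h2⟩)]
        simp
    have sub : invasion G.G ⊆
        {c | ¬ ∀ n, P.alive (fun v => c (id v) = true) n (0, 0)} ∪
        {c | ¬ ∀ n, P.alive (fun v => c (G.neg v) = true) n (0, 0)} := by
      intro c hc
      by_contra hcon
      simp only [Set.mem_union, Set.mem_ofPred_eq, not_or, not_not] at hcon
      obtain ⟨n, hn⟩ := hc ((0, 0), (true, true))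
      exact key c n ((0, 0), (true, true)) ⟨hcon.1, by simpa using hcon.2⟩ hn
    refine lt_of_le_of_lt ((measure_mono sub).trans ((measure_union_le _ _).trans
      (add_le_add (P.bound id Function.injective_id) (P.bound G.neg G.neg_inj)))) ?_
    have e3 : (1 / 4 : ENNReal) = ((1 / 4 : NNReal) : ENNReal) := by simp
    rw [e3, ← ENNReal.coe_add, ← ENNReal.coe_one, ENNReal.coe_lt_coe, ← NNReal.coe_lt_coe]
    norm_num

end Pool.Agent.Results.MP_38c1f8_pr.Cex
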